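import Pool.Agent.N205.WT.Stm

set_option autoImplicit false

/-!
# The elliptic curves with the Weil polynomial `X ^ 2 + X + p`
-/

namespace Pool.Agent.N769.WT

open Polynomial IntermediateField Pool.Agent.N205.WT
open Pool.Agent.R80.WF (PP Good)
open scoped ComplexConjugate

/-- powers of a root -/
theorem pow_root {p : ℕ} {x : ℂ} (hx : x ^ 2 + x + p = 0) (n : ℕ) :
    ∃ A B : ℤ, x ^ (n + 1) = A + B * x ∧ (p : ℤ) ∣ A ∧ (p : ℤ) ∣ B - (-1) ^ n := by
  induction n with
  | zero => exact ⟨0, 1, by simp, dvd_zero _, by simp⟩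
  | succ n ih =>
    obtain ⟨A, B, h1, h2, h3⟩ := ih
    refine ⟨-(p * B), A - B, ?_, ?_, ?_⟩
    · rw [pow_succ, h1]
      push_cast
      linear_combination (B : ℂ) * hx
    · exact (dvd_mul_right _ _).neg_right
    · have : A - B - (-1) ^ (n + 1) = A - (B - (-1) ^ n) := by ring
      rw [this]
      exact dvd_sub h2 h3

theorem t_G1 : S_G1 := by
  intro p hp
  have hp2 : 2 ≤ p := hp.two_le
  have hform : (X ^ 2 + X + C (p : ℤ) : ℤ[X]) = C 1 * X ^ 2 + C 1 * X + C (p : ℤ) := by simp
  have hdeg : (X ^ 2 + X + C (p : ℤ) : ℤ[X]).natDegree = 2 := by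
    rw [hform]
    exact natDegree_quadratic one_ne_zero
  have hmon : (X ^ 2 + X + C (p : ℤ) : ℤ[X]).Monic := by
    rw [Monic, hform]
    exact leadingCoeff_quadratic one_ne_zero
  have hmap : (X ^ 2 + X + C (p : ℤ) : ℤ[X]).map (Int.castRingHom ℚ) = X ^ 2 + X + C (p : ℚ) := by
    simp
  have hroot : ∀ x : ℂ, aeval x (X ^ 2 + X + C (p : ℤ) : ℤ[X]) = 0 → x ^ 2 + x + p = 0 := by
    intro x hx
    simpa using hx
  refine ⟨X ^ 2 + X + C (p : ℤ), hmon, by rw [hdeg], ?_, ?_, ?_, ?_, ?_⟩
  · -- irreducible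
    have hdQ : ((X ^ 2 + X + C (p : ℤ) : ℤ[X]).map (Int.castRingHom ℚ)).natDegree = 2 := by
      rw [hmon.natDegree_map, hdeg]
    rw [Polynomial.irreducible_iff_roots_eq_zero_of_degree_le_three (by rw [hdQ])
      (by rw [hdQ]; norm_num)]
    apply Multiset.eq_zero_of_forall_notMem
    intro r hr
    rw [mem_roots'] at hr
    have h1 := hr.2
    rw [hmap, IsRoot.def] at h1
    have h2 : r ^ 2 + r + p = 0 := by simpa using h1
    have h3 : (2 : ℚ) ≤ p := by exact_mod_cast hp2
    nlinarith [sq_nonneg (2 * r + 1)]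
  · -- absolute values
    intro x hx
    have h1 := hroot x hx
    have h2 : (conj x) ^ 2 + conj x + p = 0 := by
      have := congrArg conj h1
      simpa using this
    have h3 : x - conj x ≠ 0 := by
      intro h
      have h4 : conj x = x := by linear_combination (-1) * h
      obtain ⟨r, hr⟩ := Complex.conj_eq_iff_real.1 h4
      rw [hr] at h1
      have h5 : r ^ 2 + r + (p : ℝ) = 0 := by exact_mod_cast h1
      have h6 : (2 : ℝ) ≤ p := by exact_mod_cast hp2
      nlinarith [sq_nonneg (2 * r + 1)]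
    have h4 : x + conj x + 1 = 0 := by
      apply mul_left_cancel₀ h3
      linear_combination h1 - h2
    have h5 : x * conj x = p := by linear_combination x * h4 - h1
    rw [Complex.mul_conj] at h5
    have h6 : Complex.normSq x = p := by exact_mod_cast h5
    rw [← h6, Complex.normSq_eq_norm_sq, Real.sqrt_sq (norm_nonneg _)]
  · intro i hi
    have : i = 0 := by omega
    subst this
    simp
  · intro h
    have h1 : (X ^ 2 + X + C (p : ℤ) : ℤ[X]).coeff (2 * 1 - 1) = 1 := by
      simp [coeff_X, coeff_C]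
    rw [h1] at h
    have h2 := Int.le_of_dvd one_pos h
    omega
  · intro x hx n hn
    have h1 := hroot x hx
    obtain ⟨m, rfl⟩ : ∃ m, n = m + 1 := ⟨n - 1, by omega⟩
    obtain ⟨A, B, h2, h3, h4⟩ := pow_root h1 m
    have hB : B ≠ 0 := by
      rintro rfl
      have h5 : (p : ℤ) ∣ (-1) ^ m := by
        have := h4.neg_right
        simpa using this
      have h6 : IsUnit ((-1 : ℤ) ^ m) := (isUnit_one.neg).pow m
      have h7 := isUnit_of_dvd_unit h5 h6
      rw [Int.isUnit_iff] at h7
      omega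
    have hBC : (B : ℂ) ≠ 0 := by exact_mod_cast hB
    apply le_antisymm
    · rw [IntermediateField.adjoin_simple_le_iff]
      exact pow_mem (IntermediateField.mem_adjoin_simple_self ℚ x) _
    · rw [IntermediateField.adjoin_simple_le_iff]
      have h5 : x = (x ^ (m + 1) - A) / B := by
        rw [h2]
        field_simp
        ring
      rw [h5]
      have h6 : x ^ (m + 1) ∈ ℚ⟮((x ^ (m + 1) - A) / B) ^ (m + 1)⟯ := by
        rw [← h5]
        exact IntermediateField.mem_adjoin_simple_self ℚ _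
      exact div_mem (sub_mem h6 (intCast_mem _ A)) (intCast_mem _ B)

end Pool.Agent.N769.WT
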